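import Pool.Agent.Helper69.SHT.St

set_option autoImplicit false

/-!
# Project SHT, module SHT: short intervals, the final theorem
-/

open Finset Filter Pool.Agent.Helper82.CN Pool.Agent.Helper11.PV Pool.Agent.Helper69.VX
  Pool.Agent.Helper69.UX Pool.Agent.Helper69.SHT

namespace Pool.Agent.Helper70.SHT

/-- **SHT** -/
theorem hSHT : StSUB → StALN → StUXF → StSHT := by
  classical
  intro hSUB hALN hUXF p ε hp hp1 hε
  have hp1' : p < 1 := by
    have : 0 < 1 / Real.exp 2 := by positivity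
    linarith
  have hL : 0 < bb p := by
    unfold bb
    apply Real.log_pos
    rw [lt_div_iff₀ (by linarith)]
    linarith
  obtain ⟨η₁, hη₁, n1, h1⟩ := hSUB p ε hp hp1 hε
  obtain ⟨n2, h2⟩ := hUXF p (ε / 4) hp hp1 (by positivity)
  -- a power beats 2
  have h5 : 0 < 5 * ε / 8 := by positivity
  obtain ⟨n3, h3⟩ := ((tendsto_rpow_atTop h5).comp
    tendsto_natCast_atTop_atTop).eventually_ge_atTop 2 |> eventually_atTop.1
  refine ⟨min η₁ (min 1 (bb p * ε / 8)), by positivity, max (max n1 n2) (max n3 3), ?_⟩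
  intro N W hN hθ hW hW2
  have hN1 : n1 ≤ N := le_trans (le_trans (le_max_left _ _) (le_max_left _ _)) hN
  have hN2 : n2 ≤ N := le_trans (le_trans (le_max_right _ _) (le_max_left _ _)) hN
  have hN3 : n3 ≤ N := le_trans (le_trans (le_max_left _ _) (le_max_right _ _)) hN
  have hN4 : 3 ≤ N := le_trans (le_trans (le_max_right _ _) (le_max_right _ _)) hN
  have hNR : (3 : ℝ) ≤ N := by exact_mod_cast hN4
  have hN0 : (0 : ℝ) < N := by linarith
  have hW3 : (W : ℝ) ≤ η₁ * N :=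
    hW2.trans (mul_le_mul_of_nonneg_right (min_le_left _ _) hN0.le)
  have hW4 : (W : ℝ) ≤ 1 * N := hW2.trans (mul_le_mul_of_nonneg_right
    (le_trans (min_le_right _ _) (min_le_left _ _)) hN0.le)
  have hW5 : (W : ℝ) ≤ bb p * ε / 8 * N := hW2.trans (mul_le_mul_of_nonneg_right
    (le_trans (min_le_right _ _) (min_le_right _ _)) hN0.le)
  set θ : ℝ := Int.fract (a0 p N) with hθd
  rcases lt_or_ge (1 - ε) θ with hbig | hsm
  · refine le_trans ?_ (Nat.cast_nonneg _)
    have : 1 - θ - ε ≤ 0 := by linarith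
    exact mul_nonpos_of_nonpos_of_nonneg this (Nat.cast_nonneg _)
  refine (h1 N W hN1 hθ hW hW3).trans ?_
  have hsub : (Ioc N (N + W)).filter (fun n => (N : ℝ) ^ (θ / 2 - ε) ≤ sn p n) ⊆
      (Ioc N (N + W)).filter (fun n => (N : ℝ) ^ (θ / 2 - ε) ≤ sn p n ∧
        sn p n ≤ (N : ℝ) ^ (θ / 2 + ε)) := by
    intro n hn
    rw [Finset.mem_filter, Finset.mem_Ioc] at hn ⊢
    obtain ⟨⟨hn1, hn2⟩, hn3⟩ := hn
    refine ⟨⟨hn1, hn2⟩, hn3, ?_⟩
    have hnN : (N : ℝ) ≤ n := by exact_mod_cast hn1.le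
    have hnW : (n : ℝ) ≤ N + W := by exact_mod_cast hn2
    obtain ⟨e1, e2⟩ := hALN p N n hp hp1' hNR hnN
    have e3 : a0 p n - a0 p N ≤ ε / 4 := by
      refine e2.trans ?_
      have e4 : ((n : ℝ) - N) / N ≤ bb p * ε / 8 := by
        rw [div_le_iff₀ hN0]
        linarith
      calc 2 / bb p * (((n : ℝ) - N) / N) ≤ 2 / bb p * (bb p * ε / 8) :=
            mul_le_mul_of_nonneg_left e4 (by positivity)
        _ = ε / 4 := by field_simp; ring
    have hfl : Int.fract (a0 p n) = a0 p n - ⌊a0 p N⌋ := by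
      rw [Int.fract_eq_iff]
      have h6 : a0 p N = ⌊a0 p N⌋ + θ := by
        rw [hθd]
        exact (Int.floor_add_fract _).symm
      refine ⟨by linarith, by linarith, ⌊a0 p N⌋, by ring⟩
    have h6 : a0 p N = ⌊a0 p N⌋ + θ := by
      rw [hθd]
      exact (Int.floor_add_fract _).symm
    have hf1 : θ ≤ Int.fract (a0 p n) := by rw [hfl]; linarith
    have hf2 : Int.fract (a0 p n) ≤ θ + ε / 4 := by rw [hfl]; linarith
    have hu := h2 n (le_trans hN2 hn1.le) (le_trans hθ hf1)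
    refine hu.trans ?_
    have hn1' : (1 : ℝ) ≤ n := by linarith
    have hε1 : ε ≤ 1 / 2 := by linarith
    have hθ1 : θ < 1 := Int.fract_lt_one _
    calc (n : ℝ) ^ (Int.fract (a0 p n) / 2 + ε / 4) ≤ (n : ℝ) ^ (θ / 2 + 3 * ε / 8) :=
          Real.rpow_le_rpow_of_exponent_le hn1' (by linarith)
      _ ≤ (2 * (N : ℝ)) ^ (θ / 2 + 3 * ε / 8) :=
          Real.rpow_le_rpow (by linarith) (by linarith) (by linarith)
      _ = (2 : ℝ) ^ (θ / 2 + 3 * ε / 8) * (N : ℝ) ^ (θ / 2 + 3 * ε / 8) :=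
          Real.mul_rpow (by norm_num) hN0.le
      _ ≤ (2 : ℝ) ^ (1 : ℝ) * (N : ℝ) ^ (θ / 2 + 3 * ε / 8) :=
          mul_le_mul_of_nonneg_right
            (Real.rpow_le_rpow_of_exponent_le (by norm_num) (by linarith)) (by positivity)
      _ ≤ (N : ℝ) ^ (5 * ε / 8) * (N : ℝ) ^ (θ / 2 + 3 * ε / 8) := by
          refine mul_le_mul_of_nonneg_right ?_ (by positivity)
          rw [Real.rpow_one]
          exact h3 N hN3
      _ = (N : ℝ) ^ (θ / 2 + ε) := by
          rw [← Real.rpow_add hN0]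
          congr 1
          ring
  exact_mod_cast Finset.card_le_card hsub

end Pool.Agent.Helper70.SHT
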